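import Pool.Agent.L7h48.SL.Stm

set_option autoImplicit false

open Finset Filter Topology

namespace Pool.Agent.L7h41.SL

open Pool.Agent.L7h48.SL

/-- simultaneous congruences modulo the primes up to `N` -/
theorem crt (N : ℕ) (v : ℕ → ℕ) : ∃ u : ℕ, ∀ p, p.Prime → p ≤ N → u ≡ v p [MOD p] := by
  classical
  let t : Finset ℕ := (range (N + 1)).filter Nat.Prime
  obtain ⟨k, hk⟩ := Nat.chineseRemainderOfFinset v (fun p => p) t
    (fun p hp => (mem_filter.mp hp).2.ne_zero)
    (by
      intro p hp q hq hpq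
      exact (Nat.coprime_primes (mem_filter.mp hp).2 (mem_filter.mp hq).2).mpr hpq)
  exact ⟨k, fun p hp hpN => hk p (mem_filter.mpr ⟨mem_range.mpr (by omega), hp⟩)⟩

theorem adm_large (K : ℕ) (Q : ℕ) (b : ℕ → ℕ) (p : ℕ) (hp : p.Prime) (hQ : ¬ p ∣ Q)
    (hK : K + 1 < p) : ∃ n : ℕ, ¬ p ∣ n ∧ ∀ i < K, ¬ p ∣ Q * n + b i := by
  classical
  by_contra hcon
  push Not at hcon
  let φ : ℕ → ℕ := fun n => if h : ∃ i < K, p ∣ Q * n + b i then h.choose + 1 else 0
  have hmaps : ∀ n ∈ range p, φ n ∈ range (K + 1) := by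
    intro n _
    show (if h : ∃ i < K, p ∣ Q * n + b i then h.choose + 1 else 0) ∈ range (K + 1)
    split_ifs with h
    · rw [mem_range]
      have := h.choose_spec.1
      omega
    · exact mem_range.mpr (Nat.succ_pos K)
  obtain ⟨m, hm, n, hn, hne, he⟩ := exists_ne_map_eq_of_card_lt_of_maps_to
    (s := range p) (t := range (K + 1)) (by simpa using hK) hmaps
  rw [mem_range] at hm hn
  have h0 : ∀ n, ¬ (∃ i < K, p ∣ Q * n + b i) → p ∣ n := by
    intro n h
    by_contra h1
    obtain ⟨i, hi, hd⟩ := hcon n h1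
    exact h ⟨i, hi, hd⟩
  have he' : (if h : ∃ i < K, p ∣ Q * m + b i then h.choose + 1 else 0) =
      (if h : ∃ i < K, p ∣ Q * n + b i then h.choose + 1 else 0) := he
  by_cases h1 : ∃ i < K, p ∣ Q * m + b i
  · by_cases h2 : ∃ i < K, p ∣ Q * n + b i
    · rw [dif_pos h1, dif_pos h2] at he'
      have e1 := h1.choose_spec.2
      have e2 := h2.choose_spec.2
      have e3 : h1.choose = h2.choose := by omega
      rw [e3] at e1
      have e4 : Q * m ≡ Q * n [MOD p] := by
        have f1 : Q * m + b h2.choose ≡ Q * n + b h2.choose [MOD p] :=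
          ((Nat.modEq_zero_iff_dvd).mpr e1).trans ((Nat.modEq_zero_iff_dvd).mpr e2).symm
        exact Nat.ModEq.add_right_cancel' _ f1
      have e5 : m ≡ n [MOD p] :=
        Nat.ModEq.cancel_left_of_coprime ((Nat.Prime.coprime_iff_not_dvd hp).mpr hQ) e4
      exact hne (Nat.ModEq.eq_of_lt_of_lt e5 hm hn)
    · rw [dif_pos h1, dif_neg h2] at he'
      omega
  · by_cases h2 : ∃ i < K, p ∣ Q * n + b i
    · rw [dif_neg h1, dif_pos h2] at he'
      omega
    · have e1 := Nat.eq_zero_of_dvd_of_lt (h0 m h1) hm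
      have e2 := Nat.eq_zero_of_dvd_of_lt (h0 n h2) hn
      omega

theorem s_ADM : S_ADM := by
  classical
  intro off hmono hoff0 i s hI
  obtain ⟨u0, hu0⟩ := crt s.N s.v
  obtain ⟨r, hr⟩ := crt s.N s.al
  set Q : ℕ := (s.N).factorial with hQ
  have hN : 12 ≤ s.N := by
    have h1 := hI.big
    have h2 : 1 ≤ 2 ^ off (i + 1) := Nat.one_le_two_pow
    omega
  have hQN : s.N < Q := Nat.lt_factorial_self (by omega)
  have hQ0 : 0 < Q := by omega
  have hpQ : ∀ p, p.Prime → p ≤ s.N → p ∣ Q := fun p hp hpN => (Nat.Prime.dvd_factorial hp).mpr hpN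
  set h' : ℕ → ℕ := fun j => if j < off i then s.h j else r + Q * (s.N + 1 + j) with hh'
  have hold : ∀ j < off i, h' j = s.h j := fun j hj => by
    show (if j < off i then s.h j else r + Q * (s.N + 1 + j)) = _
    rw [if_pos hj]
  have hnew : ∀ j, off i ≤ j → h' j = r + Q * (s.N + 1 + j) := fun j hj => by
    show (if j < off i then s.h j else r + Q * (s.N + 1 + j)) = _
    rw [if_neg (by omega)]
  have hbig : ∀ j, off i ≤ j → s.N < h' j := by
    intro j hj
    rw [hnew j hj]
    nlinarith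
  have hmod : ∀ j, off i ≤ j → ∀ p, p.Prime → p ≤ s.N → h' j ≡ s.al p [MOD p] := by
    intro j hj p hp hpN
    rw [hnew j hj]
    have h1 : Q * (s.N + 1 + j) ≡ 0 [MOD p] :=
      (Nat.modEq_zero_iff_dvd).mpr ((hpQ p hp hpN).mul_right _)
    have h2 := (hr p hp hpN).add h1
    rwa [add_zero] at h2
  have hinj : ∀ j < off (i + 1), ∀ k < off (i + 1), h' j = h' k → j = k := by
    intro j _ k _ he
    by_cases h1 : j < off i
    · by_cases h2 : k < off i
      · rw [hold j h1, hold k h2] at he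
        exact hI.inj j h1 k h2 he
      · have h3 := hbig k (by omega)
        have h4 := hI.le j h1
        rw [← he, hold j h1] at h3
        omega
    · by_cases h2 : k < off i
      · have h3 := hbig j (by omega)
        have h4 := hI.le k h2
        rw [he, hold k h2] at h3
        omega
      · rw [hnew j (by omega), hnew k (by omega)] at he
        have h3 : Q * (s.N + 1 + j) = Q * (s.N + 1 + k) := by omega
        have h4 := Nat.eq_of_mul_eq_mul_left hQ0 h3
        omega
  have hnd : ∀ p, p.Prime → p ≤ s.N → ∀ j < off (i + 1), ¬ p ∣ s.v p + h' j := by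
    intro p hp hpN j _
    by_cases h1 : j < off i
    · rw [hold j h1]
      exact hI.i2 p hp hpN j h1
    · intro hd
      have h2 := hmod j (by omega) p hp hpN
      have h3 : s.v p + h' j ≡ s.v p + s.al p [MOD p] := Nat.ModEq.add_left _ h2
      exact hI.i1 p hp hpN ((h3.dvd_iff (dvd_refl p)).mp hd)
  refine ⟨Q, u0 + Q, h', hQN, by omega, ?_, hold, ?_, hinj, hnd, ?_, ?_, ?_, ?_⟩
  · intro p hp hpN
    refine ⟨hpQ p hp hpN, ?_⟩
    have h1 := (hu0 p hp hpN).add ((Nat.modEq_zero_iff_dvd).mpr (hpQ p hp hpN))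
    rwa [add_zero] at h1
  · intro j hj _
    exact ⟨hbig j hj, fun p hp hpN => hmod j hj p hp hpN⟩
  · intro j _
    exact hQ0
  · intro j _
    show 1 ≤ u0 + Q + h' j
    omega
  · intro j hj k hk hne he
    have h1 := Nat.eq_of_mul_eq_mul_left hQ0 he
    exact hne (hinj j hj k hk (by omega))
  · intro p hp
    by_cases hpN : p ≤ s.N
    · refine ⟨1, hp.not_dvd_one, fun j hj => ?_⟩
      intro hd
      have h1 : Q * 1 + (u0 + Q + h' j) ≡ s.v p + h' j [MOD p] := by
        have e1 : Q * 1 + (u0 + Q + h' j) = (u0 + h' j) + (Q + Q) := by ring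
        rw [e1]
        have e2 : Q + Q ≡ 0 [MOD p] :=
          (Nat.modEq_zero_iff_dvd).mpr (dvd_add (hpQ p hp hpN) (hpQ p hp hpN))
        have e3 := ((hu0 p hp hpN).add_right (h' j)).add e2
        rwa [add_zero] at e3
      exact hnd p hp hpN j hj ((h1.dvd_iff (dvd_refl p)).mp hd)
    · refine adm_large (off (i + 1)) Q (fun j => u0 + Q + h' j) p hp ?_ ?_
      · intro h
        exact hpN ((Nat.Prime.dvd_factorial hp).mp h)
      · have h1 := hI.big
        have h2 : off (i + 1) < 2 ^ off (i + 1) := Nat.lt_two_pow_self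
        omega

end Pool.Agent.L7h41.SL
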