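import Pool.Agent.L7h48.SL.Stm

set_option autoImplicit false

open Finset Filter Topology

namespace Pool.Agent.L7h41.SL

open Pool.Agent.L7h48.SL

theorem inj_sum (R : ℝ) (hR : 1 ≤ R) (a b : ℕ) (ha : 1 ≤ a) (N : ℕ) :
    ∑ n ∈ Icc 1 N, R ^ (a * n + b).primeFactors.card ≤
      ∑ m ∈ Icc 1 (a * N + b), R ^ m.primeFactors.card := by
  classical
  have hinj : Set.InjOn (fun n => a * n + b) (Icc 1 N : Finset ℕ) := by
    intro x _ y _ h
    have h1 : a * x + b = a * y + b := h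
    exact Nat.eq_of_mul_eq_mul_left (by omega) (by omega : a * x = a * y)
  rw [← Finset.sum_image (f := fun m : ℕ => R ^ m.primeFactors.card) hinj]
  refine Finset.sum_le_sum_of_subset_of_nonneg ?_ fun _ _ _ => by positivity
  intro m hm
  obtain ⟨n, hn, rfl⟩ := Finset.mem_image.mp hm
  obtain ⟨h1, h2⟩ := mem_Icc.mp hn
  have h3 : a * n ≤ a * N := Nat.mul_le_mul_left a h2
  have h4 : 1 * 1 ≤ a * n := Nat.mul_le_mul ha h1
  exact mem_Icc.mpr ⟨by omega, by omega⟩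

theorem single (hM : S_MOM) (R : ℝ) (hR : 1 ≤ R) (a b : ℕ) (ha : 1 ≤ a) :
    ∃ C : ℕ, ∀ᶠ x : ℝ in atTop,
      ∑ n ∈ Icc 1 ⌊x⌋₊, R ^ (a * n + b).primeFactors.card ≤ x * (Real.log x) ^ C := by
  obtain ⟨C, hC⟩ := hM R hR
  refine ⟨C + 1, ?_⟩
  have hY : Tendsto (fun x : ℝ => a * ⌊x⌋₊ + b) atTop atTop := by
    refine tendsto_atTop_mono (fun x => ?_) (tendsto_nat_floor_atTop (α := ℝ))
    have h4 : 1 * ⌊x⌋₊ ≤ a * ⌊x⌋₊ := Nat.mul_le_mul_right _ ha
    omega
  have h1 := hY.eventually hC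
  have h2 : ∀ᶠ x : ℝ in atTop, ((a : ℝ) + b) * 2 ^ C ≤ Real.log x :=
    Real.tendsto_log_atTop.eventually_ge_atTop _
  filter_upwards [h1, h2, eventually_ge_atTop ((a : ℝ) + b), eventually_ge_atTop (1 : ℝ)] with
    x e1 e2 e3 e4
  refine (inj_sum R hR a b ha ⌊x⌋₊).trans (e1.trans ?_)
  have hfl : ((⌊x⌋₊ : ℕ) : ℝ) ≤ x := Nat.floor_le (by linarith)
  have hfl1 : 1 ≤ ⌊x⌋₊ := Nat.le_floor (by exact_mod_cast e4)
  have ha' : (1 : ℝ) ≤ a := by exact_mod_cast ha
  have hb' : (0 : ℝ) ≤ b := Nat.cast_nonneg b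
  have hYx : ((a * ⌊x⌋₊ + b : ℕ) : ℝ) ≤ ((a : ℝ) + b) * x := by
    push_cast
    nlinarith
  have hY1 : (1 : ℝ) ≤ ((a * ⌊x⌋₊ + b : ℕ) : ℝ) := by
    have h4 : 1 * 1 ≤ a * ⌊x⌋₊ := Nat.mul_le_mul ha hfl1
    exact_mod_cast (by omega : 1 ≤ a * ⌊x⌋₊ + b)
  have hlog0 : 0 ≤ Real.log ((a * ⌊x⌋₊ + b : ℕ) : ℝ) := Real.log_nonneg hY1
  have hlogx : 0 ≤ Real.log x := Real.log_nonneg e4
  have hlog : Real.log ((a * ⌊x⌋₊ + b : ℕ) : ℝ) ≤ 2 * Real.log x := by
    have h5 : ((a * ⌊x⌋₊ + b : ℕ) : ℝ) ≤ x * x :=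
      hYx.trans (mul_le_mul_of_nonneg_right e3 (by linarith))
    have h6 := Real.log_le_log (by linarith) h5
    rw [Real.log_mul (by linarith) (by linarith)] at h6
    linarith
  calc ((a * ⌊x⌋₊ + b : ℕ) : ℝ) * Real.log ((a * ⌊x⌋₊ + b : ℕ) : ℝ) ^ C
      ≤ (((a : ℝ) + b) * x) * (2 * Real.log x) ^ C :=
        mul_le_mul hYx (pow_le_pow_left₀ hlog0 hlog C) (pow_nonneg hlog0 C) (by positivity)
    _ = x * ((((a : ℝ) + b) * 2 ^ C) * Real.log x ^ C) := by rw [mul_pow]; ring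
    _ ≤ x * (Real.log x * Real.log x ^ C) := by
        refine mul_le_mul_of_nonneg_left ?_ (by linarith)
        exact mul_le_mul_of_nonneg_right e2 (pow_nonneg hlogx C)
    _ = x * Real.log x ^ (C + 1) := by rw [pow_succ]; ring

/-- a product of numbers `≥ 0` is at most the sum of the powers -/
theorem prod_le_sum {m : ℕ} (y : Fin (m + 1) → ℝ) (hy : ∀ j, 0 ≤ y j) :
    ∏ j, y j ≤ ∑ j, y j ^ (m + 1) := by
  obtain ⟨j0, -, hj0⟩ := Finset.exists_max_image (Finset.univ : Finset (Fin (m + 1))) y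
    ⟨0, Finset.mem_univ 0⟩
  calc ∏ j, y j ≤ ∏ _j : Fin (m + 1), y j0 :=
        Finset.prod_le_prod (fun j _ => hy j) fun j _ => hj0 j (Finset.mem_univ j)
    _ = y j0 ^ (m + 1) := by simp
    _ ≤ ∑ j, y j ^ (m + 1) :=
        Finset.single_le_sum (f := fun j => y j ^ (m + 1)) (fun j _ => pow_nonneg (hy j) _)
          (Finset.mem_univ j0)

theorem card_prod_le {κ : Type} [DecidableEq κ] (s : Finset κ) (f : κ → ℕ)
    (hf : ∀ j ∈ s, f j ≠ 0) :
    (∏ j ∈ s, f j).primeFactors.card ≤ ∑ j ∈ s, (f j).primeFactors.card := by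
  induction s using Finset.induction_on with
  | empty => simp
  | insert j s hj ih =>
    rw [Finset.prod_insert hj, Finset.sum_insert hj]
    have h1 : f j ≠ 0 := hf j (Finset.mem_insert_self j s)
    have h2 : ∏ i ∈ s, f i ≠ 0 :=
      Finset.prod_ne_zero_iff.mpr fun i hi => hf i (Finset.mem_insert_of_mem hi)
    rw [Nat.primeFactors_mul h1 h2]
    refine (Finset.card_union_le _ _).trans ?_
    have := ih fun i hi => hf i (Finset.mem_insert_of_mem hi)
    omega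

theorem s_MOM2 (hM : S_MOM) : S_MOM2 := by
  classical
  intro k a b ha hb ρ hρ
  set A : Fin (k + 1) → ℕ := Fin.cons 1 a with hA
  set B : Fin (k + 1) → ℕ := Fin.cons 0 b with hB
  have hA1 : ∀ j, 1 ≤ A j := by
    intro j
    refine Fin.cases ?_ (fun i => ?_) j
    · simp [hA]
    · simp [hA, ha i]
  have hR : 1 ≤ ρ ^ (k + 1) := one_le_pow₀ hρ
  choose C hC using fun j => single hM (ρ ^ (k + 1)) hR (A j) (B j) (hA1 j)
  refine ⟨∑ j, C j + 1, ?_⟩
  have hev : ∀ᶠ x : ℝ in atTop, ∀ j, ∑ n ∈ Icc 1 ⌊x⌋₊,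
      (ρ ^ (k + 1)) ^ (A j * n + B j).primeFactors.card ≤ x * (Real.log x) ^ C j :=
    eventually_all.mpr hC
  have h2 : ∀ᶠ x : ℝ in atTop, (k : ℝ) + 1 ≤ Real.log x :=
    Real.tendsto_log_atTop.eventually_ge_atTop _
  filter_upwards [hev, h2, eventually_ge_atTop (1 : ℝ)] with x e1 e2 e3
  have hlog1 : 1 ≤ Real.log x := by
    have : (0 : ℝ) ≤ k := Nat.cast_nonneg k
    linarith
  calc ∑ n ∈ Icc 1 ⌊x⌋₊, ρ ^ (n * ∏ i, (a i * n + b i)).primeFactors.card
      ≤ ∑ n ∈ Icc 1 ⌊x⌋₊, ∑ j, (ρ ^ (k + 1)) ^ (A j * n + B j).primeFactors.card := by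
        refine Finset.sum_le_sum fun n hn => ?_
        have hn1 := (mem_Icc.mp hn).1
        have e : n * ∏ i, (a i * n + b i) = ∏ j, (A j * n + B j) := by
          rw [Fin.prod_univ_succ]
          simp [hA, hB]
        rw [e]
        have hcard := card_prod_le (Finset.univ : Finset (Fin (k + 1))) (fun j => A j * n + B j)
          (fun j _ => by
            have : 1 * 1 ≤ A j * n := Nat.mul_le_mul (hA1 j) hn1
            show A j * n + B j ≠ 0
            omega)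
        calc ρ ^ (∏ j, (A j * n + B j)).primeFactors.card
            ≤ ρ ^ (∑ j, (A j * n + B j).primeFactors.card) := pow_le_pow_right₀ hρ hcard
          _ = ∏ j, ρ ^ (A j * n + B j).primeFactors.card := (Finset.prod_pow_eq_pow_sum _ _ _).symm
          _ ≤ ∑ j, (ρ ^ (A j * n + B j).primeFactors.card) ^ (k + 1) :=
              prod_le_sum _ fun j => by positivity
          _ = ∑ j, (ρ ^ (k + 1)) ^ (A j * n + B j).primeFactors.card := by
              refine Finset.sum_congr rfl fun j _ => ?_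
              rw [← pow_mul, ← pow_mul, mul_comm]
    _ = ∑ j, ∑ n ∈ Icc 1 ⌊x⌋₊, (ρ ^ (k + 1)) ^ (A j * n + B j).primeFactors.card :=
        Finset.sum_comm
    _ ≤ ∑ j, x * (Real.log x) ^ C j := Finset.sum_le_sum fun j _ => e1 j
    _ ≤ ∑ _j : Fin (k + 1), x * (Real.log x) ^ (∑ j, C j) := by
        refine Finset.sum_le_sum fun j _ => ?_
        refine mul_le_mul_of_nonneg_left ?_ (by linarith)
        exact pow_le_pow_right₀ hlog1
          (Finset.single_le_sum (f := C) (fun _ _ => Nat.zero_le _) (Finset.mem_univ j))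
    _ = ((k : ℝ) + 1) * (x * (Real.log x) ^ (∑ j, C j)) := by
        rw [Finset.sum_const, Finset.card_univ, Fintype.card_fin, nsmul_eq_mul]
        push_cast
        ring
    _ ≤ Real.log x * (x * (Real.log x) ^ (∑ j, C j)) := by
        refine mul_le_mul_of_nonneg_right e2 ?_
        have : 0 ≤ Real.log x := by linarith
        have : 0 ≤ x := by linarith
        positivity
    _ = x * (Real.log x) ^ (∑ j, C j + 1) := by rw [pow_succ]; ring

end Pool.Agent.L7h41.SL
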