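import Pool.Agent.L7h48.SL.Stm2

set_option autoImplicit false

open Finset Filter Topology

namespace Pool.Agent.L7h41.SL

open Pool.Agent.L7h48.SL

theorem s_NUM2 : S_NUM2 := by
  intro om hom Q u C M c θ hQ hc hθ
  have h1 : ∀ᶠ X : ℕ in atTop, ∀ m, X ≤ m → ((C + M + 1 : ℕ) : ℝ) ≤ om m :=
    eventually_forall_ge_atTop.mpr (hom.eventually_ge_atTop _)
  have hlt : Tendsto (fun X : ℕ => Real.log (X : ℝ)) atTop atTop :=
    Real.tendsto_log_atTop.comp tendsto_natCast_atTop_atTop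
  have h2 := hlt.eventually_ge_atTop (4 * ((Q : ℝ) + u) * 2 ^ M / (θ ^ 2 * c))
  have h3 := hlt.eventually_ge_atTop 1
  filter_upwards [h1, h2, h3, eventually_ge_atTop (4 * (Q + u)), eventually_ge_atTop 2] with
    X e1 e2 e3 e4 e5
  intro m hm1 hm2
  have hX0 : (0 : ℝ) < X := by exact_mod_cast (by omega : 0 < X)
  have hXm : X ≤ m := by nlinarith
  have hlogX0 : 0 < Real.log X := by linarith
  have hlogm : Real.log X ≤ Real.log m := Real.log_le_log hX0 (by exact_mod_cast hXm)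
  have hlogm1 : 1 ≤ Real.log m := e3.trans hlogm
  have hpow : (Real.log X) ^ (C + M + 1) ≤ (Real.log m) ^ (om m) := by
    calc (Real.log X) ^ (C + M + 1) ≤ (Real.log m) ^ (C + M + 1) :=
          pow_le_pow_left₀ hlogX0.le hlogm _
      _ = (Real.log m) ^ (((C + M + 1 : ℕ) : ℝ)) := (Real.rpow_natCast _ _).symm
      _ ≤ (Real.log m) ^ (om m) := Real.rpow_le_rpow_of_exponent_le hlogm1 (e1 m hXm)
  have hn : ((Q * X + u : ℕ) : ℝ) ≤ ((Q : ℝ) + u) * X := by
    have hu : (u : ℝ) * 1 ≤ u * X :=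
      mul_le_mul_of_nonneg_left (by exact_mod_cast (by omega : 1 ≤ X)) (Nat.cast_nonneg u)
    push_cast
    linarith
  have hm : (m : ℝ) ≤ 4 * (((Q : ℝ) + u) * X) := by
    have h5 : (m : ℝ) ≤ 4 * ((Q * X + u : ℕ) : ℝ) := by exact_mod_cast hm2
    linarith
  have hQu0 : 0 < (Q : ℝ) + u := by
    have h5 : (1 : ℝ) ≤ Q := by exact_mod_cast hQ
    have h6 : (0 : ℝ) ≤ u := Nat.cast_nonneg u
    linarith
  have h4n0 : (1 : ℝ) < ((4 * (Q * X + u) : ℕ) : ℝ) := by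
    have : 1 < 4 * (Q * X + u) := by nlinarith
    exact_mod_cast this
  have hlog4 : Real.log ((4 * (Q * X + u) : ℕ) : ℝ) ≤ 2 * Real.log X := by
    have h5 : ((4 * (Q * X + u) : ℕ) : ℝ) ≤ (X : ℝ) * X := by
      have h6 : (4 * ((Q : ℝ) + u)) ≤ X := by exact_mod_cast e4
      push_cast at hn ⊢
      nlinarith
    have h6 := Real.log_le_log (by linarith) h5
    rw [Real.log_mul hX0.ne' hX0.ne'] at h6
    linarith
  have hlog40 : 0 < Real.log ((4 * (Q * X + u) : ℕ) : ℝ) := Real.log_pos h4n0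
  have hL : (m : ℝ) / (Real.log m) ^ (om m) ≤
      4 * (((Q : ℝ) + u) * X) / (Real.log X) ^ (C + M + 1) :=
    div_le_div₀ (by positivity) hm (pow_pos hlogX0 _) hpow
  have hR : θ ^ 2 * X / (Real.log X) ^ C * (c / (2 * Real.log X) ^ M) ≤
      θ ^ 2 * X / (Real.log X) ^ C * (c / (Real.log ((4 * (Q * X + u) : ℕ) : ℝ)) ^ M) := by
    refine mul_le_mul_of_nonneg_left ?_ (by positivity)
    exact div_le_div_of_nonneg_left hc.le (pow_pos hlog40 M) (pow_le_pow_left₀ hlog40.le hlog4 M)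
  refine hL.trans (le_trans ?_ hR)
  rw [div_le_iff₀ (by positivity)] at e2
  rw [div_le_iff₀ (pow_pos hlogX0 _)]
  have e6 : θ ^ 2 * X / (Real.log X) ^ C * (c / (2 * Real.log X) ^ M) *
      (Real.log X) ^ (C + M + 1) = X * (Real.log X * (θ ^ 2 * c)) / 2 ^ M := by
    rw [mul_pow]
    field_simp
    ring
  rw [e6, le_div_iff₀ (by positivity)]
  calc 4 * (((Q : ℝ) + u) * X) * 2 ^ M = X * (4 * ((Q : ℝ) + u) * 2 ^ M) := by ring
    _ ≤ X * (Real.log X * (θ ^ 2 * c)) := mul_le_mul_of_nonneg_left e2 hX0.le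

end Pool.Agent.L7h41.SL
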