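import Pool.Agent.L7h48.SL.Stm2
import Pool.Agent.L7h41.SL.Seqout

set_option autoImplicit false

open Finset Filter Topology

namespace Pool.Agent.L7h41.SL

open Pool.Agent.L7h48.SL

theorem s_SEQ2 (hS : S_STEP2) : S_SEQ2 := by
  classical
  intro XX hXX off hmono h0 c hc hF om hom
  have step := hS XX hXX off hmono h0 c hc hF om hom
  choose nxt hn hw hnext using step
  let F : (i : ℕ) → {s : St // Inv off i s} := fun i =>
    Nat.rec ⟨_, start off h0⟩ (fun i s => ⟨nxt i s.1 s.2, (hnext i s.1 s.2).1⟩) i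
  refine ⟨fun i => (F i).1, fun i => hn i (F i).1 (F i).2, fun i => hw i (F i).1 (F i).2,
    fun i => ⟨(F i).2, ?_⟩⟩
  exact (hnext i (F i).1 (F i).2).2

theorem s_OUT2 (hS : S_SEQ2) : S_OUT2 := by
  classical
  intro XX hXX off hmono h0 c hc hF om hom
  obtain ⟨s, n, w, hsw⟩ := hS XX hXX off hmono h0 c hc hF om hom
  have hI := fun i => (hsw i).1
  have hT := fun i => (hsw i).2
  have hoff : ∀ i, i ≤ off i := fun i => hmono.id_le i
  have hN1 : ∀ i, (s i).N < (s (i + 1)).N := fun i => by
    have := (hT i).lt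
    omega
  have hNmono : StrictMono (fun i => (s i).N) := strictMono_nat_of_lt_succ hN1
  have hNi : ∀ i, i ≤ (s i).N := fun i => hNmono.id_le i
  -- the classes are stable
  have halst : ∀ d i p, p ≤ (s i).N → (s (i + d)).al p = (s i).al p := by
    intro d
    induction d with
    | zero => intro i p _; rfl
    | succ d ih =>
      intro i p hp
      have h1 : p ≤ (s (i + d)).N := hp.trans (hNmono.monotone (by omega : i ≤ i + d))
      have h2 := (hT (i + d)).alExt p h1
      rw [← ih i p hp, ← h2]
      rfl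
  have hal : ∀ i p, p ≤ (s i).N → (s i).al p = (s p).al p := by
    intro i p hp
    rcases le_total i p with h | h
    · obtain ⟨d, rfl⟩ := Nat.exists_eq_add_of_le h
      exact (halst d i _ hp).symm
    · obtain ⟨d, rfl⟩ := Nat.exists_eq_add_of_le h
      exact halst d p p (hNi p)
  have hhst : ∀ d i j, j < off i → (s (i + d)).h j = (s i).h j := by
    intro d
    induction d with
    | zero => intro i j _; rfl
    | succ d ih =>
      intro i j hj
      have h1 : j < off (i + d) := hj.trans_le (hmono.monotone (by omega : i ≤ i + d))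
      have h2 := (hT (i + d)).hExt j h1
      rw [← ih i j hj, ← h2]
      rfl
  have hh : ∀ i j, j < off i → (s i).h j = (s (j + 1)).h j := by
    intro i j hj
    have hj1 : j < off (j + 1) := hoff (j + 1)
    rcases le_total i (j + 1) with h | h
    · obtain ⟨d, hd⟩ := Nat.exists_eq_add_of_le h
      rw [hd]
      exact (hhst d i j hj).symm
    · obtain ⟨d, hd⟩ := Nat.exists_eq_add_of_le h
      rw [hd]
      exact hhst d (j + 1) j hj1
  -- the stage of a prime
  have hstage : ∀ i p, (s i).N < p → ∃ i', i ≤ i' ∧ (s i').N < p ∧ p ≤ (s (i' + 1)).N := by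
    intro i p hp
    have hex : ∃ m, p ≤ (s m).N := ⟨p, hNi p⟩
    have h1 := Nat.find_spec hex
    have h2 : i < Nat.find hex := by
      by_contra h
      push Not at h
      have := hNmono.monotone h
      have h3 : (s (Nat.find hex)).N ≤ (s i).N := this
      omega
    obtain ⟨m, hm⟩ : ∃ m, Nat.find hex = m + 1 := ⟨Nat.find hex - 1, by omega⟩
    refine ⟨m, by omega, ?_, by rw [← hm]; exact h1⟩
    have := Nat.find_min hex (m := m) (by omega)
    omega
  have hostage : ∀ i j, off i ≤ j → ∃ i', i ≤ i' ∧ off i' ≤ j ∧ j < off (i' + 1) := by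
    intro i j hj
    have hex : ∃ m, j < off m := ⟨j + 1, hoff (j + 1)⟩
    have h1 := Nat.find_spec hex
    have h2 : i < Nat.find hex := by
      by_contra h
      push Not at h
      have := hmono.monotone h
      omega
    obtain ⟨m, hm⟩ : ∃ m, Nat.find hex = m + 1 := ⟨Nat.find hex - 1, by omega⟩
    refine ⟨m, by omega, ?_, by rw [← hm]; exact h1⟩
    have := Nat.find_min hex (m := m) (by omega)
    omega
  refine ⟨fun i => (s i).N, n, fun p => (s p).al p, fun j => (s (j + 1)).h j, w,
    ⟨fun i => (hT i).lt, fun i => (hT i).xx, ?_, ?_, ?_, ?_⟩, fun i => (hT i).w0, fun i => (hT i).wsupp,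
    fun i => (hT i).wtot, ?_⟩
  · intro i j hj
    show (s (j + 1)).h j ≤ (s i).N
    rw [← hh i j hj]
    exact (hI i).le j hj
  · intro j k he
    have he' : (s (j + 1)).h j = (s (k + 1)).h k := he
    have h1 : j < off (j + k + 1) := lt_of_lt_of_le (by omega) (hoff (j + k + 1))
    have h2 : k < off (j + k + 1) := lt_of_lt_of_le (by omega) (hoff (j + k + 1))
    rw [← hh _ j h1, ← hh _ k h2] at he'
    exact (hI (j + k + 1)).inj j h1 k h2 he'
  · intro i j hj p hp hpN
    obtain ⟨i', h1, h2, h3⟩ := hostage i j hj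
    have h4 : p ≤ (s i').N := hpN.trans (hNmono.monotone h1)
    have h5 := ((hT i').hNew j h2 h3).2 p hp h4
    show (s (j + 1)).h j ≡ (s p).al p [MOD p]
    rw [← hh (i' + 1) j h3, ← hal i' p h4]
    exact h5
  · intro i F hF hmass
    have hFh : ∀ j ∈ F, (s (j + 1)).h j = (s (i + 1)).h j := fun j hj =>
      (hh (i + 1) j (mem_range.mp (hF hj))).symm
    have hset : ∀ b, (∀ j ∈ F, (b + (s (j + 1)).h j).Prime) ↔
        (∀ j ∈ F, (b + (s (i + 1)).h j).Prime) := by
      intro b
      constructor
      · intro h j hj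
        rw [← hFh j hj]
        exact h j hj
      · intro h j hj
        rw [hFh j hj]
        exact h j hj
    have hmass' : 1 / ((i : ℝ) + 2) ≤ ∑ b ∈ (range (n i + 1)).filter
        (fun b => ∀ j ∈ F, (b + (s (i + 1)).h j).Prime), w i b := by
      refine hmass.trans (le_of_eq ?_)
      refine Finset.sum_congr ?_ fun _ _ => rfl
      ext b
      simp only [mem_filter]
      rw [hset b]
    obtain ⟨T, hT1, hT2⟩ := (hT i).cnt F hF hmass'
    refine ⟨T, fun b hb => ?_, hT2⟩
    obtain ⟨b1, b2, b3, b4⟩ := hT1 b hb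
    refine ⟨b1, b2, (hset b).mpr b3, fun p hp => ?_⟩
    show ¬ p ∣ b + (s p).al p
    by_cases hpN : p ≤ (s (i + 1)).N
    · rw [← hal (i + 1) p hpN]
      exact b4 p hp hpN
    · push Not at hpN
      obtain ⟨i', h1, h2, h3⟩ := hstage (i + 1) p hpN
      have h4 := (hT i').alNew p hp h2 h3
      rw [hal (i' + 1) p h3] at h4
      have h5 := (hT i).lt
      intro hd
      have := Nat.le_of_dvd (by omega) hd
      omega
  · intro i t ht
    refine ((hT i).wblk t ht).trans (le_of_eq ?_)
    refine Finset.sum_congr ?_ fun _ _ => rfl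
    ext b
    simp only [mem_filter]
    have : (∃ j ∈ Ico (off t) (off (t + 1)), (b + (s (i + 1)).h j).Prime) ↔
        (∃ j ∈ Ico (off t) (off (t + 1)), (b + (s (j + 1)).h j).Prime) := by
      constructor
      · rintro ⟨j, hj, hp⟩
        have hj2 : j < off (i + 1) :=
          (mem_Ico.mp hj).2.trans_le (hmono.monotone (by omega : t + 1 ≤ i + 1))
        exact ⟨j, hj, by rw [← hh (i + 1) j hj2]; exact hp⟩
      · rintro ⟨j, hj, hp⟩
        have hj2 : j < off (i + 1) :=
          (mem_Ico.mp hj).2.trans_le (hmono.monotone (by omega : t + 1 ≤ i + 1))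
        exact ⟨j, hj, by rw [hh (i + 1) j hj2]; exact hp⟩
    rw [this]

end Pool.Agent.L7h41.SL
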