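import Pool.Agent.L7h48.SL.Stm

set_option autoImplicit false

open Finset Filter Topology

namespace Pool.Agent.L7h41.SL

open Pool.Agent.L7h48.SL

/-- the weights transported to the progression `Q m + u` -/
noncomputable def wt (Q u X : ℕ) (g : ℕ → ℝ) (b : ℕ) : ℝ :=
  ∑ m ∈ (Icc 1 X).filter (fun m => Q * m + u = b), g m

theorem wt_sum (Q u X : ℕ) (g : ℕ → ℝ) (P : ℕ → Prop) [DecidablePred P]
    [DecidablePred (fun m => P (Q * m + u))] :
    ∑ b ∈ (range (Q * X + u + 1)).filter (fun b => P b), wt Q u X g b =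
      ∑ m ∈ (Icc 1 X).filter (fun m => P (Q * m + u)), g m := by
  have hmaps : ∀ m ∈ (Icc 1 X).filter (fun m => P (Q * m + u)),
      Q * m + u ∈ (range (Q * X + u + 1)).filter (fun b => P b) := by
    intro m hm
    obtain ⟨h1, h2⟩ := mem_filter.mp hm
    have h3 : Q * m ≤ Q * X := Nat.mul_le_mul_left Q (mem_Icc.mp h1).2
    exact mem_filter.mpr ⟨mem_range.mpr (by omega), h2⟩
  rw [← Finset.sum_fiberwise_of_maps_to hmaps g]
  refine Finset.sum_congr rfl fun b hb => ?_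
  unfold wt
  rw [Finset.filter_filter]
  refine Finset.sum_congr ?_ fun _ _ => rfl
  ext m
  simp only [mem_filter]
  constructor
  · rintro ⟨h1, h2⟩
    refine ⟨h1, ?_, h2⟩
    rw [h2]
    exact (mem_filter.mp hb).2
  · rintro ⟨h1, _, h2⟩
    exact ⟨h1, h2⟩

theorem wt_nonneg (Q u X : ℕ) (g : ℕ → ℝ) (hg : ∀ m ∈ Icc 1 X, 0 ≤ g m) (b : ℕ) :
    0 ≤ wt Q u X g b := by
  classical
  unfold wt
  exact Finset.sum_nonneg fun m hm => hg m (mem_filter.mp hm).1

theorem wt_supp (Q u X : ℕ) (g : ℕ → ℝ) (b : ℕ) (h : wt Q u X g b ≠ 0) :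
    ∃ m ∈ Icc 1 X, Q * m + u = b := by
  classical
  unfold wt at h
  obtain ⟨m, hm, _⟩ := Finset.exists_ne_zero_of_sum_ne_zero h
  exact ⟨m, (mem_filter.mp hm).1, (mem_filter.mp hm).2⟩

theorem s_STEP (hADM : S_ADM) (hVN : S_VN) (hGR : S_GR) (hPB : S_PB) (hCS : S_CS) (hNUM : S_NUM) :
    S_STEP := by
  classical
  intro off hmono h0 c hc hF om hom i s hI
  obtain ⟨Q, u, h', hQN, hu1, hQu, hold, hnew, hinj, hnd, hG⟩ := hADM off hmono h0 i s hI
  obtain ⟨mu, Z, C, hev⟩ := hF (i + 1) _ _ hG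
  set K : ℕ := 2 ^ off (i + 1) with hK
  obtain ⟨c', M, hc', hprod⟩ := hPB K
  have hθ : (0 : ℝ) < 1 / ((i : ℝ) + 2) := by positivity
  have hnum := hNUM om hom Q u C M c' (1 / ((i : ℝ) + 2)) (by omega) hc' hθ
  have hev' := tendsto_natCast_atTop_atTop (R := ℝ) |>.eventually hev
  obtain ⟨X, hX1, hX2, hX3⟩ := (hev'.and (hnum.and (eventually_ge_atTop
    (3 + (6 * 2 ^ off (i + 1 + 1) + 6) + ∑ j ∈ range (off (i + 1)), h' j)))).exists
  obtain ⟨hZ, hmu0, hmu2, hmu1, hblk⟩ := hX1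
  rw [Nat.floor_natCast] at hmu0 hmu2 hmu1 hblk
  have hX0 : 3 ≤ X := by omega
  set n : ℕ := Q * X + u with hn
  have hQ0 : 0 < Q := by omega
  have hXn : X ≤ n := by nlinarith
  have hNn : s.N < n := by nlinarith
  have hlogX : 0 < Real.log X := Real.log_pos (by exact_mod_cast (by omega : 1 < X))
  have hlogn : 0 < Real.log ((4 * n : ℕ) : ℝ) := Real.log_pos (by exact_mod_cast (by omega : 1 < 4 * n))
  -- the weights
  set g : ℕ → ℝ := fun m => mu X m / Z X with hg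
  have hg0 : ∀ m ∈ Icc 1 X, 0 ≤ g m := fun m hm => div_nonneg (hmu0 m hm) hZ.le
  set w : ℕ → ℝ := wt Q u X g with hw
  -- sets of the subsets
  let T0 : Finset ℕ → Finset ℕ := fun F =>
    (Icc 1 X).filter (fun m => ∀ j ∈ F, (Q * m + u + h' j).Prime)
  let T1 : Finset ℕ → Finset ℕ := fun F => (T0 F).image (fun m => Q * m + u)
  have hcard : ∀ F, (T1 F).card = (T0 F).card := fun F => by
    refine Finset.card_image_of_injective _ ?_
    intro x y hxy
    have h1 : Q * x + u = Q * y + u := hxy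
    exact Nat.eq_of_mul_eq_mul_left hQ0 (by omega)
  have hmassT : ∀ F, ∑ b ∈ (range (n + 1)).filter (fun b => ∀ j ∈ F, (b + h' j).Prime), w b =
      (∑ m ∈ T0 F, mu X m) / Z X := by
    intro F
    have h1 := wt_sum Q u X g (fun b => ∀ j ∈ F, (b + h' j).Prime)
    refine h1.trans ?_
    rw [Finset.sum_div]
  have hT0big : ∀ F, 1 / ((i : ℝ) + 2) ≤
      ∑ b ∈ (range (n + 1)).filter (fun b => ∀ j ∈ F, (b + h' j).Prime), w b →
      (1 / ((i : ℝ) + 2)) ^ 2 * X ≤ (Real.log X) ^ C * ((T1 F).card : ℝ) := by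
    intro F hF
    rw [hmassT F, le_div_iff₀ hZ] at hF
    rw [hcard F]
    exact hCS X (mu X) (Z X) ((Real.log X) ^ C) (1 / ((i : ℝ) + 2)) (by omega) hZ (by positivity)
      hθ.le hmu0 hmu2 (T0 F) (Finset.filter_subset _ _) hF
  -- the family
  let 𝒯 : Finset (Finset ℕ) := (range (off (i + 1))).powerset.image T1
  have h𝒯 : 𝒯.card ≤ K := by
    refine Finset.card_image_le.trans ?_
    rw [Finset.card_powerset, Finset.card_range]
  have hNbig : 6 * K + 6 ≤ s.N := hI.big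
  obtain ⟨al, hal1, hal2⟩ := hGR K ((Ioc s.N (4 * n)).filter Nat.Prime)
    (fun p hp => ⟨(mem_filter.mp hp).2, by
      have := (mem_Ioc.mp (mem_filter.mp hp).1).1
      omega⟩) 𝒯 h𝒯
  -- new classes
  set al' : ℕ → ℕ := fun p => if p ≤ s.N then s.al p else al p with hal'
  have halold : ∀ p ≤ s.N, al' p = s.al p := fun p hp => by
    show (if p ≤ s.N then s.al p else al p) = _
    rw [if_pos hp]
  have halnew : ∀ p, s.N < p → al' p = al p := fun p hp => by
    show (if p ≤ s.N then s.al p else al p) = _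
    rw [if_neg (by omega)]
  have hKbig : off (i + 1) < K := Nat.lt_two_pow_self
  have hv : ∀ p : ℕ, p.Prime ∧ s.N < p → ∃ v : ℕ, ¬ p ∣ v + al' p ∧ ∀ j < off (i + 1), ¬ p ∣ v + h' j :=
    fun p hp => hVN (off (i + 1)) h' al' p hp.1 (by omega)
  choose! v' hv' using hv
  set vn : ℕ → ℕ := fun p => if p ≤ s.N then s.v p else v' p with hvn
  have hvold : ∀ p ≤ s.N, vn p = s.v p := fun p hp => by
    show (if p ≤ s.N then s.v p else v' p) = _
    rw [if_pos hp]
  have hvnew : ∀ p, s.N < p → vn p = v' p := fun p hp => by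
    show (if p ≤ s.N then s.v p else v' p) = _
    rw [if_neg (by omega)]
  refine ⟨⟨4 * n, al', vn, h'⟩, n, w, ⟨?_, ?_, ?_, hinj, ?_⟩, ⟨halold, ?_, hold, hnew, ⟨hNn, ?_⟩, ?_,
    ?_, ?_, ?_, ?_⟩⟩
  · -- big
    show 6 * 2 ^ off (i + 1 + 1) + 6 ≤ 4 * n
    omega
  · intro p hp hpN
    show ¬ p ∣ vn p + al' p
    by_cases h : p ≤ s.N
    · rw [hvold p h, halold p h]
      exact hI.i1 p hp h
    · rw [hvnew p (by omega)]
      exact (hv' p ⟨hp, by omega⟩).1
  · intro p hp hpN j hj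
    show ¬ p ∣ vn p + h' j
    by_cases h : p ≤ s.N
    · rw [hvold p h]
      exact hnd p hp h j hj
    · rw [hvnew p (by omega)]
      exact (hv' p ⟨hp, by omega⟩).2 j hj
  · intro j hj
    show h' j ≤ 4 * n
    have h1 : h' j ≤ ∑ j ∈ range (off (i + 1)), h' j :=
      Finset.single_le_sum (f := h') (fun _ _ => Nat.zero_le _) (mem_range.mpr hj)
    omega
  · intro p hp h1 h2
    show 1 ≤ al' p ∧ 2 * al' p < p
    rw [halnew p h1]
    exact hal1 p (mem_filter.mpr ⟨mem_Ioc.mpr ⟨h1, h2⟩, hp⟩)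
  · show 2 * n ≤ 4 * n
    omega
  · exact fun b => wt_nonneg Q u X g hg0 b
  · intro b hb
    obtain ⟨m, hm, rfl⟩ := wt_supp Q u X g b hb
    obtain ⟨hm1, hm2⟩ := mem_Icc.mp hm
    have h1 : Q * 1 ≤ Q * m := Nat.mul_le_mul_left Q hm1
    have h2 : Q * m ≤ Q * X := Nat.mul_le_mul_left Q hm2
    constructor <;> omega
  · have h1 := wt_sum Q u X g (fun _ => True)
    simp only [Finset.filter_true] at h1
    show ∑ b ∈ range (n + 1), w b ≤ 2
    refine (le_of_eq h1).trans ?_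
    rw [hg, ← Finset.sum_div, div_le_iff₀ hZ]
    exact hmu1
  · intro t ht
    have h1 := wt_sum Q u X g (fun b => ∃ j ∈ Ico (off t) (off (t + 1)), (b + h' j).Prime)
    show c ≤ ∑ b ∈ (range (n + 1)).filter
      (fun b => ∃ j ∈ Ico (off t) (off (t + 1)), (b + h' j).Prime), w b
    refine le_trans ?_ (le_of_eq h1.symm)
    rw [hg, ← Finset.sum_div, le_div_iff₀ hZ]
    refine (hblk t ht).trans (le_of_eq ?_)
    refine Finset.sum_congr ?_ fun _ _ => rfl
    ext m
    simp only [mem_filter, add_assoc]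
  · intro F hF hmass
    have hmass' : 1 / ((i : ℝ) + 2) ≤
      ∑ b ∈ (range (n + 1)).filter (fun b => ∀ j ∈ F, (b + h' j).Prime), w b := hmass
    have hbig := hT0big F hmass'
    have hTm : T1 F ∈ 𝒯 := Finset.mem_image_of_mem _ (Finset.mem_powerset.mpr hF)
    have hgr := hal2 (T1 F) hTm
    refine ⟨(T1 F).filter (fun b => ∀ p ∈ (Ioc s.N (4 * n)).filter Nat.Prime, ¬ p ∣ b + al p),
      ?_, ?_⟩
    · intro b hb
      obtain ⟨hb1, hb2⟩ := mem_filter.mp hb
      obtain ⟨m, hm, rfl⟩ := Finset.mem_image.mp hb1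
      obtain ⟨hm1, hm2⟩ := mem_filter.mp hm
      obtain ⟨hm3, hm4⟩ := mem_Icc.mp hm1
      have h1 : Q * 1 ≤ Q * m := Nat.mul_le_mul_left Q hm3
      have h2 : Q * m ≤ Q * X := Nat.mul_le_mul_left Q hm4
      refine ⟨by omega, by omega, hm2, ?_⟩
      intro p hp hpN
      show ¬ p ∣ Q * m + u + al' p
      by_cases h : p ≤ s.N
      · rw [halold p h]
        intro hd
        obtain ⟨e1, e2⟩ := hQu p hp h
        have e3 : Q * m + u + s.al p ≡ s.v p + s.al p [MOD p] := by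
          have e4 : Q * m ≡ 0 [MOD p] := (Nat.modEq_zero_iff_dvd).mpr (e1.mul_right m)
          have e5 := (e4.add e2).add_right (s.al p)
          rwa [zero_add] at e5
        exact hI.i1 p hp h ((e3.dvd_iff (dvd_refl p)).mp hd)
      · rw [halnew p (by omega)]
        exact hb2 p (mem_filter.mpr ⟨mem_Ioc.mpr ⟨by omega, hpN⟩, hp⟩)
    · intro m hm1 hm2
      have h1 := hX2 m hm1 hm2
      have h2 := hprod s.N (4 * n) hNbig (by omega)
      refine h1.trans (le_trans ?_ hgr)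
      refine mul_le_mul ?_ h2 (div_nonneg hc'.le (pow_nonneg hlogn.le M)) (Nat.cast_nonneg _)
      rw [div_le_iff₀ (pow_pos hlogX C)]
      exact hbig.trans (le_of_eq (mul_comm _ _))

end Pool.Agent.L7h41.SL
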